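import Mathlib
import Pool.Agent.TH444.ML.Done

/-!
# Malle's conjecture for the wreath products `C₂ ≀ (A ≀ S_m)`

`A` is any finite group and `m ≥ ((3 |A| + 2)!) ^ 3`; the group `H = A ≀ S_m` acts on itself by
multiplication, and `G = C₂ ≀ H` acts on `H × {0, 1}`. The asymptotic formula of Q1 holds for `G`
over every number field `K` (no largeness condition), with `ind(G) = 1` and `β_K(G) = 1`.
-/

set_option autoImplicit false

open Filter
open Pool.Agent.TH444.TW (Cls)
open Pool.Agent.H391R2 (Wr)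

namespace Pool.Agent.Results.MP_b39724_nt.WreathOfOrderTwo

/-- `G ≤ S_n` is, up to a bijection `f` of `{1, ..., n}` with `H × {0, 1}`, the wreath product
`C₂ ≀ H`: it consists of all permutations `π` for which there is `h ∈ H` such that `π` maps the block
`{x} × {0, 1}` to the block `{h x} × {0, 1}`, for all `x ∈ H`. -/
def IsC2Wreath (H : Type) [Group H] {n : ℕ} (G : Subgroup (Equiv.Perm (Fin n))) : Prop :=
  ∃ f : Fin n ≃ H × Bool, ∀ π : Equiv.Perm (Fin n), π ∈ G ↔ ∃ h : H, ∀ i, (f (π i)).1 = h * (f i).1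

/-- The index of a permutation: `n` minus the number of its cycles, fixed points included. -/
def ind {n : ℕ} (g : Equiv.Perm (Fin n)) : ℕ := g.cycleType.sum - Multiset.card g.cycleType

/-- `ind(G)`, the minimum of `ind(g)` over the `g ≠ 1` in `G`. -/
noncomputable def indG {n : ℕ} (G : Subgroup (Equiv.Perm (Fin n))) : ℕ :=
  sInf {j : ℕ | ∃ g ∈ G, g ≠ 1 ∧ j = ind g}

/-- `g` and `h` are `K`-conjugate in `G`: `h` is conjugate to `g ^ a` for some `a` such that some
element of the absolute Galois group of `K` acts on the roots of unity of order dividing `|G|` by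
`ζ ↦ ζ ^ a`. -/
def KConj (K : Type) [Field K] {n : ℕ} (G : Subgroup (Equiv.Perm (Fin n))) (g h : G) : Prop :=
  ∃ (σ : AlgebraicClosure K ≃ₐ[K] AlgebraicClosure K) (a : ℕ),
    (∀ ζ : AlgebraicClosure K, ζ ^ Nat.card G = 1 → σ ζ = ζ ^ a) ∧ IsConj h (g ^ a)

/-- `β_K(G)`: the number of `K`-conjugacy classes of elements of index `ind(G)`. -/
noncomputable def beta (K : Type) [Field K] {n : ℕ} (G : Subgroup (Equiv.Perm (Fin n))) : ℕ :=
  Nat.card (Quot (fun g h : {g : G // g ≠ 1 ∧ ind g.1 = indG G} => KConj K G g.1 h.1))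

/-- The Galois group of `M/K`, acting on the embeddings of `M`, is `G`, up to numbering. -/
def HasGroup (K : Type) [Field K] {n : ℕ} (G : Subgroup (Equiv.Perm (Fin n)))
    (M : IntermediateField K (AlgebraicClosure K)) : Prop :=
  ∃ e : (M →ₐ[K] AlgebraicClosure K) ≃ Fin n, ∀ π : Equiv.Perm (Fin n),
    π ∈ G ↔ ∃ σ : AlgebraicClosure K ≃ₐ[K] AlgebraicClosure K,
      ∀ φ : M →ₐ[K] AlgebraicClosure K, e (σ.toAlgHom.comp φ) = π (e φ)

/-- The relative discriminant of `M/K`, of degree `n`, has norm at most `B`; that is,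
`|d_M| ≤ B |d_K| ^ n`. -/
def DiscLe (K : Type) [Field K] [NumberField K] (n : ℕ) (B : ℝ)
    (M : IntermediateField K (AlgebraicClosure K)) : Prop :=
  ∃ h : NumberField M,
    ((|@NumberField.discr M _ h| : ℤ) : ℝ) ≤ B * ((|NumberField.discr K| : ℤ) : ℝ) ^ n

/-- The fields `M` between `K` and its algebraic closure which are counted: `M/K` has degree `n`,
Galois group `G` and relative discriminant of norm at most `B`. -/
def Ext (K : Type) [Field K] [NumberField K] (n : ℕ) (G : Subgroup (Equiv.Perm (Fin n)))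
    (B : ℝ) : Type :=
  {M : IntermediateField K (AlgebraicClosure K) //
    Module.finrank K M = n ∧ HasGroup K G M ∧ DiscLe K n B M}

/-- `n_K(G, B)`: the number of small `G`-fields `L/K`, up to isomorphism over `K`, with relative
discriminant of norm at most `B`. -/
noncomputable def count (K : Type) [Field K] [NumberField K] (n : ℕ)
    (G : Subgroup (Equiv.Perm (Fin n))) (B : ℝ) : ℕ :=
  Nat.card (Quot (fun L L' : Ext K n G B => Nonempty (L.1 ≃ₐ[K] L'.1)))

/-- The asymptotic formula of Q1 for `(K, G)`, with the exponents of the conjecture. -/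
def Malle (K : Type) [Field K] [NumberField K] (n : ℕ) (G : Subgroup (Equiv.Perm (Fin n))) :
    Prop :=
  ∃ C : ℝ, 0 < C ∧ Asymptotics.IsEquivalent atTop (fun B : ℝ => (count K n G B : ℝ))
    (fun B : ℝ => C * B ^ (1 / (indG G : ℝ)) * Real.log B ^ (beta K G - 1))

theorem indG_eq {H : Type} [Group H] [Finite H] {n : ℕ} {G : Subgroup (Equiv.Perm (Fin n))}
    (hG : IsC2Wreath H G) : indG G = 1 := by
  have h := Pool.Agent.TH444.ML.least_ind (H := H) hG
  exact h.csInf_eq

theorem beta_eq (K : Type) [Field K] {H : Type} [Group H] [Finite H] (h2 : 2 ≤ Nat.card H) {n : ℕ}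
    {G : Subgroup (Equiv.Perm (Fin n))} (hG : IsC2Wreath H G) : beta K G = 1 := by
  unfold beta
  rw [Nat.card_eq_one_iff_unique]
  constructor
  · constructor
    intro x y
    induction x using Quot.ind with | _ g =>
    induction y using Quot.ind with | _ h =>
    apply Quot.sound
    refine ⟨AlgEquiv.refl, 1, fun ζ _ => by simp, ?_⟩
    rw [pow_one]
    refine Pool.Agent.TH444.ML.conj_of_ind_one h2 hG _ _ ?_ ?_
    · exact h.2.2.trans (indG_eq hG)
    · exact g.2.2.trans (indG_eq hG)
  · obtain ⟨g, h3, h4, h5⟩ := Pool.Agent.TH444.ML.exists_ind_one (H := H) hG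
    exact ⟨Quot.mk _ ⟨⟨g, h3⟩, fun h => h4 (congrArg Subtype.val h), h5.trans (indG_eq hG).symm⟩⟩

theorem of_data (K : Type) [Field K] [NumberField K] (H : Type) [Group H] [Finite H]
    (h2 : 2 ≤ Nat.card H) (U : Subgroup H) (hU : U.normalCore = ⊥)
    (hc : 8 * U.index * (U.index + 1) ≤ Nat.card H)
    (hne : (Pool.Agent.TH444.ML.Gal K (AlgebraicClosure K) H).Nonempty) (n : ℕ)
    (G : Subgroup (Equiv.Perm (Fin n))) (hG : IsC2Wreath H G) : Malle K n G := by
  obtain ⟨c, hc0, hlim⟩ :=
    Pool.Agent.TH444.ML.asymp_iso Pool.Agent.TH444.ML.rest K H h2 U hU hc hne G hG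
  refine ⟨c, hc0, ?_⟩
  rw [indG_eq hG, beta_eq K h2 hG]
  have h1 : (fun B : ℝ => c * B ^ (1 / ((1 : ℕ) : ℝ)) * Real.log B ^ (1 - 1)) =
      fun B : ℝ => c * B := by
    funext B; simp
  rw [h1, Asymptotics.isEquivalent_iff_tendsto_one]
  · have h3 := hlim.div_const c
    rw [div_self hc0.ne'] at h3
    refine h3.congr' ?_
    filter_upwards [eventually_gt_atTop (0 : ℝ)] with B hB
    simp only [Pi.div_apply]
    rw [div_div, mul_comm B c]
    rfl
  · filter_upwards [eventually_gt_atTop (0 : ℝ)] with B hB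
    intro h
    exact absurd h (by positivity)

end Pool.Agent.Results.MP_b39724_nt.WreathOfOrderTwo

open Pool.Agent.Results.MP_b39724_nt.WreathOfOrderTwo in
/-- The asymptotic formula of Q1 holds for `C₂ ≀ (A ≀ S_m)` over every number field `K` (first
part), and more generally for `C₂ ≀ H` whenever `H` is the top of a finite tower of steps in the
class `Cls K` over a finite Galois extension `L/K` and `H` has a subgroup of index `u`, with trivial
normal core, `8 u (u + 1) ≤ |H|` (second part). In all cases `ind(G) = β_K(G) = 1`. -/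
theorem Pool.Agent.Results.MP_b39724_nt.WreathOfOrderTwo.result :
    (∀ (A : Type) [Group A] [Finite A] (m : ℕ), ((3 * Nat.card A + 2).factorial) ^ 3 ≤ m →
      ∀ (n : ℕ) (G : Subgroup (Equiv.Perm (Fin n))), IsC2Wreath (Wr A m) G →
      ∀ (K : Type) [Field K] [NumberField K], Malle K n G) ∧
    (∀ (K L H : Type) [Field K] [NumberField K] [Field L] [Algebra K L] [FiniteDimensional K L]
      [IsGalois K L] [Group H] [Finite H] (p : H →* (L ≃ₐ[K] L)), Cls K p →
      ∀ U : Subgroup H, U.normalCore = ⊥ → 8 * U.index * (U.index + 1) ≤ Nat.card H →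
      ∀ (n : ℕ) (G : Subgroup (Equiv.Perm (Fin n))), IsC2Wreath H G → Malle K n G) ∧
    (∀ (H : Type) [Group H] [Finite H] (n : ℕ) (G : Subgroup (Equiv.Perm (Fin n))),
      2 ≤ Nat.card H → IsC2Wreath H G →
      indG G = 1 ∧ ∀ (K : Type) [Field K], beta K G = 1) := by
  refine ⟨?_, ?_, ?_⟩
  · intro A _ _ m hm n G hG K _ _
    obtain ⟨h2, ⟨U, hU, hc⟩, hne⟩ := Pool.Agent.TH444.ML.wr_data K A m hm
    exact of_data K (Wr A m) h2 U hU hc hne n G hG
  · intro K L H _ _ _ _ _ _ _ _ p hp U hU hc n G hG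
    have h1 : 1 ≤ U.index := Nat.one_le_iff_ne_zero.2 Subgroup.index_ne_zero_of_finite
    have h2 : 2 ≤ Nat.card H := by nlinarith
    exact of_data K H h2 U hU hc
      (Pool.Agent.TH444.ML.gal_nonempty K (AlgebraicClosure K) L H p hp) n G hG
  · intro H _ _ n G h2 hG
    exact ⟨indG_eq hG, fun K _ => beta_eq K h2 hG⟩
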